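import Mathlib

/-!
# MP_e3ef68_co: covering the unit ball by cylinders with two-dimensional bases

For every `d ≥ 4`, in every finite covering of the closed unit ball of `ℝ^d` by
`(d-2)`-codimensional cylinders the base areas sum to at least `2π/(d-2)`; for `d = 4` this is
`π`, and it is attained by one cylinder.

Proof: compare volumes in the thin shell `s < ‖x‖ ≤ 1`.  A cylinder `H + B` meets the shell in a
set of volume at most `vol(B) (1 - s^(d-2)) ω_(d-2)` (every slice parallel to `H` is at most that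
large), the shell has volume `(1 - s^d) ω_d`, and `ω_d = (2π/d) ω_(d-2)`.  Let `s → 1`.
-/

set_option autoImplicit false

open MeasureTheory Metric Module

namespace Pool.Agent.Results.MP_e3ef68_co.SphereBound


lemma pow_gap {a b s : ℝ} (ha : 0 ≤ a) (hb : 0 ≤ b) (hs : 0 ≤ s) (hbs : b ≤ s) (ha1 : a ≤ 1)
    (hs1 : s ≤ 1) (h : 1 - a ^ 2 = s ^ 2 - b ^ 2) (k : ℕ) (hk : 2 ≤ k) :
    a ^ k - b ^ k ≤ 1 - s ^ k := by
  have hab : b ≤ a := by
    by_contra hcon
    push Not at hcon
    nlinarith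
  have hkey : b ≤ a * s := by
    have h1 : b ^ 2 ≤ (a * s) ^ 2 := by
      have : (a * s) ^ 2 - b ^ 2 = (s ^ 2 - b ^ 2) * (1 - s ^ 2) := by
        have : a ^ 2 = 1 - (s ^ 2 - b ^ 2) := by linarith
        rw [mul_pow, this]; ring
      have h2 : 0 ≤ (s ^ 2 - b ^ 2) * (1 - s ^ 2) := by
        apply mul_nonneg <;> nlinarith
      linarith
    exact le_of_sq_le_sq h1 (mul_nonneg ha hs)
  induction k, hk using Nat.le_induction with
  | base => nlinarith
  | succ k hk ih =>
    have h1 : b ^ k * (s - b) ≤ a ^ k * (1 - a) := by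
      have hk1 : 1 ≤ k := by omega
      -- (1 - a)(1 + a) = (s - b)(s + b)
      have e : (1 - a) * (1 + a) = (s - b) * (s + b) := by nlinarith
      have h3 : b ^ k * (1 + a) ≤ a ^ k * (s + b) := by
        obtain ⟨j, rfl⟩ : ∃ j, k = j + 1 := ⟨k - 1, by omega⟩
        have h4 : b * (1 + a) ≤ a * (s + b) := by nlinarith
        have h5 : b ^ j ≤ a ^ j := pow_le_pow_left₀ hb hab j
        calc b ^ (j + 1) * (1 + a) = b ^ j * (b * (1 + a)) := by ring
          _ ≤ a ^ j * (a * (s + b)) := by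
              apply mul_le_mul h5 h4 (by positivity) (by positivity)
          _ = a ^ (j + 1) * (s + b) := by ring
      have h6 : (b ^ k * (s - b)) * (1 + a) ≤ (a ^ k * (1 - a)) * (1 + a) := by
        calc (b ^ k * (s - b)) * (1 + a) = (s - b) * (b ^ k * (1 + a)) := by ring
          _ ≤ (s - b) * (a ^ k * (s + b)) := by
              apply mul_le_mul_of_nonneg_left h3; linarith
          _ = a ^ k * ((s - b) * (s + b)) := by ring
          _ = a ^ k * ((1 - a) * (1 + a)) := by rw [e]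
          _ = (a ^ k * (1 - a)) * (1 + a) := by ring
      exact le_of_mul_le_mul_right h6 (by linarith)
    have h7 : 0 ≤ s ^ k - b ^ k := by
      have := pow_le_pow_left₀ hb hbs k
      linarith
    have h8 : s * (s ^ k - b ^ k) ≤ s ^ k - b ^ k := by nlinarith
    have e1 : 1 - a ^ (k + 1) = (1 - a ^ k) + a ^ k * (1 - a) := by ring
    have e2 : s ^ (k + 1) - b ^ (k + 1) = s * (s ^ k - b ^ k) + b ^ k * (s - b) := by ring
    linarith

variable {V : Type*} [NormedAddCommGroup V] [InnerProductSpace ℝ V] [FiniteDimensional ℝ V]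
  [MeasurableSpace V] [BorelSpace V]

/-- slices of a thin shell -/
lemma slice_bound {k : ℕ} (hk : 2 ≤ k) (hV : finrank ℝ V = k) {s t : ℝ} (hs : 0 ≤ s)
    (hs1 : s ≤ 1) (ht : 0 ≤ t) :
    volume {u : V | s ^ 2 < ‖u‖ ^ 2 + t ∧ ‖u‖ ^ 2 + t ≤ 1} ≤
      ENNReal.ofReal (1 - s ^ k) * volume (ball (0 : V) 1) := by
  have : Nontrivial V := by
    apply Module.nontrivial_of_finrank_pos (R := ℝ); omega
  by_cases ht1 : 1 < t
  · have : {u : V | s ^ 2 < ‖u‖ ^ 2 + t ∧ ‖u‖ ^ 2 + t ≤ 1} = ∅ := by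
      ext u
      simp only [Set.mem_ofPred_eq, Set.mem_empty_iff_false, iff_false, not_and, not_le]
      intro _
      nlinarith [sq_nonneg ‖u‖]
    rw [this]; simp
  push Not at ht1
  by_cases hst : s ^ 2 < t
  · -- everything in the small ball
    set a := Real.sqrt (1 - t) with ha
    have ha0 : 0 ≤ a := Real.sqrt_nonneg _
    have ha2 : a ^ 2 = 1 - t := Real.sq_sqrt (by linarith)
    have hsub : {u : V | s ^ 2 < ‖u‖ ^ 2 + t ∧ ‖u‖ ^ 2 + t ≤ 1} ⊆ closedBall (0 : V) a := by
      rintro u ⟨_, h2⟩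
      rw [mem_closedBall_zero_iff]
      apply le_of_sq_le_sq _ ha0
      linarith
    refine (measure_mono hsub).trans ?_
    rw [Measure.addHaar_closedBall _ _ ha0, hV]
    gcongr
    set a0 := Real.sqrt (1 - s ^ 2) with ha0'
    have h0 : 0 ≤ a0 := Real.sqrt_nonneg _
    have h2 : a0 ^ 2 = 1 - s ^ 2 := Real.sq_sqrt (by nlinarith)
    have hle : a ≤ a0 := Real.sqrt_le_sqrt (by linarith)
    have h3 := pow_gap h0 le_rfl hs hs (by nlinarith) hs1 (by rw [h2]; ring) k hk
    have h4 : a ^ k ≤ a0 ^ k := pow_le_pow_left₀ ha0 hle k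
    have h5 : (0 : ℝ) ^ k = 0 := zero_pow (by omega)
    linarith
  · push Not at hst
    set a := Real.sqrt (1 - t) with ha
    have ha0 : 0 ≤ a := Real.sqrt_nonneg _
    have ha2 : a ^ 2 = 1 - t := Real.sq_sqrt (by linarith)
    set b := Real.sqrt (s ^ 2 - t) with hb
    have hb0 : 0 ≤ b := Real.sqrt_nonneg _
    have hb2 : b ^ 2 = s ^ 2 - t := Real.sq_sqrt (by linarith)
    have hsub : {u : V | s ^ 2 < ‖u‖ ^ 2 + t ∧ ‖u‖ ^ 2 + t ≤ 1} ⊆
        closedBall (0 : V) a \ closedBall (0 : V) b := by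
      rintro u ⟨h1, h2⟩
      rw [Set.mem_sdiff, mem_closedBall_zero_iff, mem_closedBall_zero_iff]
      constructor
      · apply le_of_sq_le_sq _ ha0
        linarith
      · intro h3
        have : ‖u‖ ^ 2 ≤ b ^ 2 := pow_le_pow_left₀ (norm_nonneg _) h3 2
        linarith
    refine (measure_mono hsub).trans ?_
    have hba : b ≤ a := Real.sqrt_le_sqrt (by nlinarith)
    rw [measure_sdiff (closedBall_subset_closedBall hba) measurableSet_closedBall.nullMeasurableSet
      (measure_closedBall_lt_top).ne, Measure.addHaar_closedBall _ _ ha0,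
      Measure.addHaar_closedBall _ _ hb0, hV]
    rw [← ENNReal.sub_mul (fun _ _ => (measure_ball_lt_top).ne),
      ← ENNReal.ofReal_sub _ (by positivity)]
    have hbs : b ≤ s := by
      apply le_of_sq_le_sq _ hs
      linarith
    have ha1 : a ≤ 1 := by
      apply le_of_sq_le_sq _ zero_le_one
      linarith
    refine mul_le_mul' (ENNReal.ofReal_le_ofReal ?_) le_rfl
    exact pow_gap ha0 hb0 hs hbs ha1 hs1 (by rw [ha2, hb2]; ring) k hk


section fub

variable {E : Type*} [NormedAddCommGroup E] [InnerProductSpace ℝ E] [FiniteDimensional ℝ E]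
  [MeasurableSpace E] [BorelSpace E]

/-- A cylinder meets a shell in a set of small volume. -/
lemma cyl_shell_le {k : ℕ} (hk : 2 ≤ k) (H : Submodule ℝ E) (hH : finrank ℝ H = k)
    (B : Set ↥Hᗮ) (hB : MeasurableSet B) {s : ℝ} (hs : 0 ≤ s) (hs1 : s ≤ 1) :
    volume ({x : E | ∃ h ∈ H, ∃ b ∈ B, x = h + (b : E)} ∩ (closedBall 0 1 \ closedBall 0 s)) ≤
      ENNReal.ofReal (1 - s ^ k) * volume (ball (0 : H) 1) * volume B := by
  have hmp : MeasurePreserving (fun x : E => ((H.orthogonalProjectionOnto x,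
      Hᗮ.orthogonalProjectionOnto x) : H × Hᗮ)) := by
    have h1 := (WithLp.volume_preserving_ofLp H Hᗮ).comp
      H.orthogonalDecomposition.measurePreserving
    have h2 : (fun x : E => ((H.orthogonalProjectionOnto x,
      Hᗮ.orthogonalProjectionOnto x) : H × Hᗮ)) = WithLp.ofLp ∘ H.orthogonalDecomposition := by
      funext x
      simp
    rw [h2]
    exact h1
  set T : Set (H × Hᗮ) := {p | p.2 ∈ B ∧ s ^ 2 < ‖p.1‖ ^ 2 + ‖p.2‖ ^ 2 ∧
    ‖p.1‖ ^ 2 + ‖p.2‖ ^ 2 ≤ 1} with hT
  have hTm : MeasurableSet T := by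
    have m1 : Measurable (fun p : H × Hᗮ => ‖p.1‖ ^ 2 + ‖p.2‖ ^ 2) := by fun_prop
    exact (measurable_snd hB).inter ((measurableSet_lt measurable_const m1).inter
      (measurableSet_le m1 measurable_const))
  have hsub : ({x : E | ∃ h ∈ H, ∃ b ∈ B, x = h + (b : E)} ∩
      (closedBall 0 1 \ closedBall 0 s)) ⊆ (fun x : E => ((H.orthogonalProjectionOnto x,
      Hᗮ.orthogonalProjectionOnto x) : H × Hᗮ)) ⁻¹' T := by
    rintro x ⟨⟨h, hh, b, hb, rfl⟩, h1, h2⟩
    rw [mem_closedBall_zero_iff] at h1 h2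
    push Not at h2
    have hbo : (b : E) ∈ Hᗮ := b.2
    have e1 : H.orthogonalProjectionOnto (h + (b : E)) = ⟨h, hh⟩ := by
      rw [map_add, Submodule.orthogonalProjectionOnto_apply_of_mem_orthogonal hbo, add_zero]
      exact H.orthogonalProjectionOnto_mem_subspace_eq_self ⟨h, hh⟩
    have e2 : Hᗮ.orthogonalProjectionOnto (h + (b : E)) = b := by
      rw [map_add, Submodule.orthogonalProjectionOnto_orthogonal_apply_eq_zero hh, zero_add]
      exact Hᗮ.orthogonalProjectionOnto_mem_subspace_eq_self b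
    have e3 : ‖h + (b : E)‖ ^ 2 = ‖h‖ ^ 2 + ‖(b : E)‖ ^ 2 := by
      rw [norm_add_sq_real, H.inner_right_of_mem_orthogonal hh hbo]
      ring
    simp only [hT, Set.mem_preimage, Set.mem_ofPred_eq, e1, e2]
    refine ⟨hb, ?_, ?_⟩
    · have : s ^ 2 < ‖h + (b : E)‖ ^ 2 := pow_lt_pow_left₀ h2 hs two_ne_zero
      rw [e3] at this
      simpa using this
    · have : ‖h + (b : E)‖ ^ 2 ≤ 1 ^ 2 := pow_le_pow_left₀ (norm_nonneg _) h1 2
      rw [e3] at this
      simpa using this
  refine (measure_mono hsub).trans ?_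
  rw [hmp.measure_preimage hTm.nullMeasurableSet]
  rw [Measure.volume_eq_prod, Measure.prod_apply_symm hTm]
  calc ∫⁻ v, volume ((fun u => (u, v)) ⁻¹' T)
      ≤ ∫⁻ v, B.indicator (fun _ => ENNReal.ofReal (1 - s ^ k) * volume (ball (0 : H) 1)) v := by
        apply lintegral_mono
        intro v
        by_cases hv : v ∈ B
        · simp only [Set.indicator_of_mem hv]
          refine le_trans (measure_mono ?_) (slice_bound hk hH hs hs1 (t := ‖v‖ ^ 2) (by positivity))
          intro u hu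
          exact hu.2
        · have : ((fun u => (u, v)) ⁻¹' T : Set H) = ∅ := by
            ext u
            simp [hT, hv]
          simp only [this, measure_empty]
          exact zero_le
    _ = ENNReal.ofReal (1 - s ^ k) * volume (ball (0 : H) 1) * volume B := by
        rw [lintegral_indicator hB, lintegral_const, Measure.restrict_apply_univ]

/-- volume of unit balls in dimensions `k` and `k + 2` -/
lemma ball_vol_two {V : Type*} [NormedAddCommGroup V] [InnerProductSpace ℝ V]
    [FiniteDimensional ℝ V] [MeasurableSpace V] [BorelSpace V] {k : ℕ} (hk : 2 ≤ k)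
    (hV : finrank ℝ V = k) (hE : finrank ℝ E = k + 2) :
    volume (ball (0 : E) 1) = ENNReal.ofReal (2 * Real.pi / (k + 2)) * volume (ball (0 : V) 1) := by
  have : Nontrivial V := by
    apply Module.nontrivial_of_finrank_pos (R := ℝ); omega
  have : Nontrivial E := by
    apply Module.nontrivial_of_finrank_pos (R := ℝ); omega
  rw [InnerProductSpace.volume_ball, InnerProductSpace.volume_ball, hV, hE]
  simp only [ENNReal.ofReal_one, one_pow, one_mul]
  rw [← ENNReal.ofReal_mul (by positivity)]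
  congr 1
  have hG : Real.Gamma (((k + 2 : ℕ) : ℝ) / 2 + 1) = ((k : ℝ) / 2 + 1) * Real.Gamma ((k : ℝ) / 2 + 1) := by
    have : (((k + 2 : ℕ) : ℝ) / 2 + 1) = ((k : ℝ) / 2 + 1) + 1 := by push_cast; ring
    rw [this, Real.Gamma_add_one (by positivity)]
  rw [hG, pow_add, Real.sq_sqrt Real.pi_pos.le]
  have : Real.Gamma ((k : ℝ) / 2 + 1) ≠ 0 := (Real.Gamma_pos_of_pos (by positivity)).ne'
  field_simp
  try ring

end fub

open Filter Topology in
lemma limit_step {k : ℕ} (hk : 2 ≤ k) {σ : ℝ}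
    (h : ∀ s : ℝ, 0 ≤ s → s < 1 → (1 - s ^ (k + 2)) * (2 * Real.pi / (k + 2)) ≤ (1 - s ^ k) * σ) :
    2 * Real.pi / k ≤ σ := by
  have hgeo : ∀ (n : ℕ) (s : ℝ), 1 - s ^ n = (∑ j ∈ Finset.range n, s ^ j) * (1 - s) := by
    intro n s
    have := geom_sum_mul_neg s n
    linarith
  have h2 : ∀ s : ℝ, 0 ≤ s → s < 1 →
      (∑ j ∈ Finset.range (k + 2), s ^ j) * (2 * Real.pi / (k + 2)) ≤
        (∑ j ∈ Finset.range k, s ^ j) * σ := by
    intro s h0 h1
    have := h s h0 h1
    rw [hgeo, hgeo k s] at this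
    have hs : 0 < 1 - s := by linarith
    refine le_of_mul_le_mul_right ?_ hs
    linarith
  have c1 : Tendsto (fun s : ℝ => (∑ j ∈ Finset.range (k + 2), s ^ j) * (2 * Real.pi / (k + 2)))
      (𝓝[<] 1) (𝓝 ((∑ j ∈ Finset.range (k + 2), (1 : ℝ) ^ j) * (2 * Real.pi / (k + 2)))) := by
    apply Tendsto.mono_left _ nhdsWithin_le_nhds
    apply Continuous.tendsto (f := fun s : ℝ => (∑ j ∈ Finset.range (k + 2), s ^ j) *
      (2 * Real.pi / (k + 2)))
    fun_prop
  have c2 : Tendsto (fun s : ℝ => (∑ j ∈ Finset.range k, s ^ j) * σ)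
      (𝓝[<] 1) (𝓝 ((∑ j ∈ Finset.range k, (1 : ℝ) ^ j) * σ)) := by
    apply Tendsto.mono_left _ nhdsWithin_le_nhds
    apply Continuous.tendsto (f := fun s : ℝ => (∑ j ∈ Finset.range k, s ^ j) * σ)
    fun_prop
  have h3 := le_of_tendsto_of_tendsto c1 c2 (by
    have : Set.Ioo (0 : ℝ) 1 ∈ 𝓝[<] (1 : ℝ) := Ioo_mem_nhdsLT one_pos
    filter_upwards [this] with s hs
    exact h2 s hs.1.le hs.2)
  have hk0 : (0 : ℝ) < k := by positivity
  simp only [one_pow, Finset.sum_const, Finset.card_range, nsmul_eq_mul, mul_one] at h3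
  push_cast at h3
  have e : ((k : ℝ) + 2) * (2 * Real.pi / (k + 2)) = 2 * Real.pi := by field_simp
  rw [e] at h3
  rw [div_le_iff₀ hk0]
  linarith

/-- Main bound. -/
theorem main {d : ℕ} (hd : 4 ≤ d) (N : ℕ) (H : Fin N → Submodule ℝ (EuclideanSpace ℝ (Fin d)))
    (B : (i : Fin N) → Set ↥(H i)ᗮ)
    (hH : ∀ i, Module.finrank ℝ ↥(H i) = d - 2)
    (hB : ∀ i, MeasurableSet (B i))
    (hcov : Metric.closedBall (0 : EuclideanSpace ℝ (Fin d)) 1 ⊆
          ⋃ i, {x : EuclideanSpace ℝ (Fin d) |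
            ∃ h ∈ H i, ∃ b ∈ B i, x = h + (b : EuclideanSpace ℝ (Fin d))}) :
    ENNReal.ofReal (2 * Real.pi / ((d : ℝ) - 2)) ≤ ∑ i, MeasureTheory.volume (B i) := by
  obtain ⟨k, rfl⟩ : ∃ k, d = k + 2 := ⟨d - 2, by omega⟩
  have hk : 2 ≤ k := by omega
  simp only [Nat.add_sub_cancel] at hH
  have ecast : (((k + 2 : ℕ) : ℝ) - 2) = k := by push_cast; ring
  rw [ecast]
  set σ := ∑ i, volume (B i) with hσ
  by_cases hfin : σ = ⊤
  · rw [hfin]; exact le_top
  have : Nontrivial (EuclideanSpace ℝ (Fin k)) := by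
    apply Module.nontrivial_of_finrank_pos (R := ℝ)
    rw [finrank_euclideanSpace_fin]; omega
  set w := volume (ball (0 : EuclideanSpace ℝ (Fin k)) 1) with hw
  have hw0 : w ≠ 0 := (measure_ball_pos _ _ one_pos).ne'
  have hwt : w ≠ ⊤ := measure_ball_lt_top.ne
  have hwi : ∀ i, volume (ball (0 : H i) 1) = w := by
    intro i
    have : Nontrivial (H i) := by
      apply Module.nontrivial_of_finrank_pos (R := ℝ); rw [hH i]; omega
    rw [hw, InnerProductSpace.volume_ball, InnerProductSpace.volume_ball, hH i,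
      finrank_euclideanSpace_fin]
  have hE : volume (ball (0 : EuclideanSpace ℝ (Fin (k + 2))) 1) =
      ENNReal.ofReal (2 * Real.pi / (k + 2)) * w := by
    apply ball_vol_two hk
    · rw [finrank_euclideanSpace_fin]
    · rw [finrank_euclideanSpace_fin]
  have key : ∀ s : ℝ, 0 ≤ s → s < 1 →
      (1 - s ^ (k + 2)) * (2 * Real.pi / (k + 2)) ≤ (1 - s ^ k) * σ.toReal := by
    intro s h0 h1
    have hp : 0 ≤ 1 - s ^ k := by
      have := pow_le_one₀ h0 h1.le (n := k); linarith
    have hp2 : 0 ≤ 1 - s ^ (k + 2) := by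
      have := pow_le_one₀ h0 h1.le (n := k + 2); linarith
    have v1 : volume (closedBall (0 : EuclideanSpace ℝ (Fin (k + 2))) 1 \ closedBall 0 s) =
        ENNReal.ofReal (1 - s ^ (k + 2)) * (ENNReal.ofReal (2 * Real.pi / (k + 2)) * w) := by
      rw [measure_sdiff (closedBall_subset_closedBall h1.le)
        measurableSet_closedBall.nullMeasurableSet (measure_closedBall_lt_top).ne,
        Measure.addHaar_closedBall _ _ zero_le_one, Measure.addHaar_closedBall _ _ h0,
        finrank_euclideanSpace_fin, ← hE,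
        ← ENNReal.sub_mul (fun _ _ => (measure_ball_lt_top).ne),
        ← ENNReal.ofReal_sub _ (by positivity), one_pow]
    have v2 : volume (closedBall (0 : EuclideanSpace ℝ (Fin (k + 2))) 1 \ closedBall 0 s) ≤
        ENNReal.ofReal (1 - s ^ k) * w * σ := by
      calc volume (closedBall (0 : EuclideanSpace ℝ (Fin (k + 2))) 1 \ closedBall 0 s)
          ≤ volume (⋃ i, ({x : EuclideanSpace ℝ (Fin (k + 2)) |
            ∃ h ∈ H i, ∃ b ∈ B i, x = h + (b : EuclideanSpace ℝ (Fin (k + 2)))} ∩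
              (closedBall 0 1 \ closedBall 0 s))) := by
            apply measure_mono
            intro x hx
            obtain ⟨i, hi⟩ := Set.mem_iUnion.1 (hcov hx.1)
            exact Set.mem_iUnion.2 ⟨i, hi, hx⟩
        _ ≤ ∑ i, volume ({x : EuclideanSpace ℝ (Fin (k + 2)) |
            ∃ h ∈ H i, ∃ b ∈ B i, x = h + (b : EuclideanSpace ℝ (Fin (k + 2)))} ∩
              (closedBall 0 1 \ closedBall 0 s)) := measure_iUnion_fintype_le _ _
        _ ≤ ∑ i, ENNReal.ofReal (1 - s ^ k) * w * volume (B i) := by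
            apply Finset.sum_le_sum
            intro i _
            rw [← hwi i]
            exact cyl_shell_le hk (H i) (hH i) (B i) (hB i) h0 h1.le
        _ = ENNReal.ofReal (1 - s ^ k) * w * σ := by rw [hσ, Finset.mul_sum]
    rw [v1] at v2
    have v3 : ENNReal.ofReal ((1 - s ^ (k + 2)) * (2 * Real.pi / (k + 2))) ≤
        ENNReal.ofReal ((1 - s ^ k) * σ.toReal) := by
      rw [ENNReal.ofReal_mul hp2, ENNReal.ofReal_mul hp, ENNReal.ofReal_toReal hfin]
      refine (ENNReal.mul_le_mul_iff_left hw0 hwt).1 ?_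
      calc ENNReal.ofReal (1 - s ^ (k + 2)) * ENNReal.ofReal (2 * Real.pi / (k + 2)) * w
          = ENNReal.ofReal (1 - s ^ (k + 2)) * (ENNReal.ofReal (2 * Real.pi / (k + 2)) * w) := by
            ring
        _ ≤ _ := v2
        _ = _ := by ring
    exact (ENNReal.ofReal_le_ofReal_iff (mul_nonneg hp ENNReal.toReal_nonneg)).1 v3
  have hfinal := limit_step hk key
  calc ENNReal.ofReal (2 * Real.pi / k) ≤ ENNReal.ofReal σ.toReal := ENNReal.ofReal_le_ofReal hfinal
    _ = σ := ENNReal.ofReal_toReal hfin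


/-- The unit ball of `ℝ⁴` is covered by one cylinder whose base is a disc of area `π`. -/
theorem sharp_four : ∃ (H : Submodule ℝ (EuclideanSpace ℝ (Fin 4))) (B : Set ↥Hᗮ),
    Module.finrank ℝ ↥H = 4 - 2 ∧ MeasurableSet B ∧
    (Metric.closedBall (0 : EuclideanSpace ℝ (Fin 4)) 1 ⊆
      {x : EuclideanSpace ℝ (Fin 4) | ∃ h ∈ H, ∃ b ∈ B, x = h + (b : EuclideanSpace ℝ (Fin 4))}) ∧
    MeasureTheory.volume B = ENNReal.ofReal Real.pi := by
  let v : Fin 2 → EuclideanSpace ℝ (Fin 4) :=
    fun i => EuclideanSpace.single (Fin.castLE (by norm_num) i) (1 : ℝ)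
  have hv : LinearIndependent ℝ v := by
    have h1 : Orthonormal ℝ (fun i : Fin 4 => EuclideanSpace.single i (1 : ℝ)) :=
      EuclideanSpace.orthonormal_single
    exact (h1.comp (Fin.castLE (by norm_num : 2 ≤ 4)) (Fin.castLE_injective _)).linearIndependent
  refine ⟨Submodule.span ℝ (Set.range v), closedBall 0 1, ?_, measurableSet_closedBall, ?_, ?_⟩
  · rw [finrank_span_eq_card hv]; simp
  · intro x hx
    rw [mem_closedBall_zero_iff] at hx
    set H := Submodule.span ℝ (Set.range v)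
    refine ⟨H.orthogonalProjectionOnto x, (H.orthogonalProjectionOnto x).2,
      Hᗮ.orthogonalProjectionOnto x, ?_, ?_⟩
    · rw [mem_closedBall_zero_iff]
      exact (Hᗮ.norm_orthogonalProjectionOnto_apply_le x).trans hx
    · exact (H.starProjection_add_starProjection_orthogonal x).symm
  · set H := Submodule.span ℝ (Set.range v)
    have hf : finrank ℝ ↥Hᗮ = 2 := by
      have h1 := H.finrank_add_finrank_orthogonal
      have h2 : finrank ℝ ↥H = 2 := by rw [finrank_span_eq_card hv]; simp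
      rw [finrank_euclideanSpace_fin, h2] at h1
      omega
    have : Nontrivial ↥Hᗮ := by
      apply Module.nontrivial_of_finrank_pos (R := ℝ); omega
    rw [Measure.addHaar_closedBall_eq_addHaar_ball, InnerProductSpace.volume_ball, hf]
    simp only [ENNReal.ofReal_one, one_pow, one_mul]
    congr 1
    rw [Real.sq_sqrt Real.pi_pos.le]
    norm_num [Real.Gamma_two]

/-- A `k`-codimensional cylinder `H + B` of the Euclidean space `E`: `H` is a `k`-dimensional
linear subspace, the base `B` is a measurable subset of the orthogonal complement of `H`. -/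
structure Cylinder (E : Type*) [NormedAddCommGroup E] [InnerProductSpace ℝ E] [MeasurableSpace E]
    (k : ℕ) where
  /-- the direction space -/
  H : Submodule ℝ E
  /-- the base -/
  B : Set ↥Hᗮ
  finrank_eq : finrank ℝ ↥H = k
  measurable : MeasurableSet B

/-- The point set `H + B`. -/
def Cylinder.toSet {E : Type*} [NormedAddCommGroup E] [InnerProductSpace ℝ E] [MeasurableSpace E]
    {k : ℕ} (C : Cylinder E k) : Set E :=
  {x | ∃ h ∈ C.H, ∃ b ∈ C.B, x = h + (b : E)}

/-- The Lebesgue measure of the base, in the orthogonal complement of `H`. -/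
noncomputable def Cylinder.baseVol {E : Type*} [NormedAddCommGroup E] [InnerProductSpace ℝ E]
    [FiniteDimensional ℝ E] [MeasurableSpace E] [BorelSpace E] {k : ℕ} (C : Cylinder E k) :
    ENNReal :=
  volume C.B

/-- **Result.** (1) For every `d ≥ 4` and every finite covering of the closed unit ball of `ℝ^d`
by `(d-2)`-codimensional cylinders with measurable bases, the base areas sum to at least
`2π/(d-2)`. (2) For `d = 4` this bound is `π` and is attained, by one cylinder. -/
theorem result :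
    (∀ d N : ℕ, 4 ≤ d → ∀ C : Fin N → Cylinder (EuclideanSpace ℝ (Fin d)) (d - 2),
      closedBall 0 1 ⊆ ⋃ i, (C i).toSet →
        ENNReal.ofReal (2 * Real.pi / ((d : ℝ) - 2)) ≤ ∑ i, (C i).baseVol) ∧
    (∃ C : Cylinder (EuclideanSpace ℝ (Fin 4)) (4 - 2),
      closedBall 0 1 ⊆ C.toSet ∧ C.baseVol = ENNReal.ofReal Real.pi) := by
  refine ⟨fun d N hd C h => main hd N (fun i => (C i).H) (fun i => (C i).B)
    (fun i => (C i).finrank_eq) (fun i => (C i).measurable) h, ?_⟩
  obtain ⟨H, B, h1, h2, h3, h4⟩ := sharp_four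
  exact ⟨⟨H, B, h1, h2⟩, h3, h4⟩

end Pool.Agent.Results.MP_e3ef68_co.SphereBound
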